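import Pool.Agent.MWBN.Stmts

/-!
# Block MWBN, row EWN: insertion in the class W
-/

set_option autoImplicit false

namespace Pool.Agent.MWBN.H7

open Pool.Agent.Helper14_MV Pool.Agent.Helper2_MV Pool.Agent.MVO Pool.Agent.MWL Pool.Agent.MWS
open Pool.Agent.MWBN

theorem rep_cons (a : ℕ) (q : List ℕ) : ∀ n : ℕ,
    List.replicate n a ++ a :: q = a :: (List.replicate n a ++ q)
  | 0 => rfl
  | n + 1 => by
    rw [List.replicate_succ, List.cons_append, rep_cons a q n, List.cons_append]

theorem flat_rep (g : ℕ → List ℕ) (a : ℕ) (h : g 0 = [a]) : ∀ n : ℕ,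
    (List.replicate n 0).flatMap g = List.replicate n a
  | 0 => rfl
  | n + 1 => by
    rw [List.replicate_succ, List.flatMap_cons, flat_rep g a h n, h, List.replicate_succ]
    rfl

/-- context -/
theorem ctx {β : FIC} (p q : List ℕ) {l l' m m' : List ℕ} (h : RR β l l')
    (e : p ++ l ++ q = m) (e' : p ++ l' ++ q = m') : RR β m m' := by
  rw [← e, ← e']
  exact ((RR.refl p).append h).append (RR.refl q)

/-- substitution for two letters -/
def s2 (X Y : List ℕ) : ℕ → List ℕ := fun c => if c = 0 then X else Y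

/-- substitution for three letters -/
def s3 (X Y Z : List ℕ) : ℕ → List ℕ := fun c => if c = 0 then X else if c = 1 then Y else Z

theorem ic {n : ℕ} {β : FIC} (h : ClW n β) (X Y : List ℕ) :
    RR β (X ++ (Y ++ (X ++ Y))) (Y ++ (X ++ (Y ++ X))) := by
  have h1 := h.f0.sub (s2 X Y)
  have h2 := h.f1.sub (s2 Y X)
  simp only [List.flatMap_cons, List.flatMap_nil, s2, if_true, if_false, one_ne_zero,
    List.append_nil] at h1 h2
  exact β.trans h1 (β.symm h2)

theorem ruleI {n : ℕ} {β : FIC} (h : ClW n β) (p w q : List ℕ) (a : ℕ) (ha : a ∈ q) :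
    RR β (p ++ a :: (w ++ (w ++ q))) (p ++ a :: (w ++ (w ++ (List.replicate n a ++ q)))) := by
  obtain ⟨q1, q2, rfl⟩ := List.append_of_mem ha
  have h1 := h.e0.sub (s3 [a] w q1)
  simp only [List.flatMap_append, flat_rep (s3 [a] w q1) a rfl] at h1
  refine ctx p q2 h1 ?_ ?_
  · simp [s3]
  · simp [s3]

theorem zb {n : ℕ} {β : FIC} (h : ClW n β) (A : List ℕ) (b : ℕ) :
    RR β ([b, b] ++ A ++ [b, b] ++ A ++ [b]) (b :: ([b, b] ++ A ++ [b, b] ++ A)) := by
  refine ctx [b] [] (β.symm (ic h [b] (b :: A))) ?_ ?_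
  · simp
  · simp

theorem zbr {n : ℕ} {β : FIC} (h : ClW n β) (A : List ℕ) (b : ℕ) : ∀ r : ℕ,
    RR β ([b, b] ++ A ++ [b, b] ++ A ++ List.replicate r b)
      (List.replicate r b ++ ([b, b] ++ A ++ [b, b] ++ A))
  | 0 => by
    simpa using RR.refl (β := β) ([b, b] ++ A ++ [b, b] ++ A)
  | r + 1 => by
    have h1 := zbr h A b r
    have h2 := ctx [] [b] h1 rfl rfl
    have h3 := ctx (List.replicate r b) [] (zb h A b) rfl rfl
    have e1 : [] ++ ([b, b] ++ A ++ [b, b] ++ A ++ List.replicate r b) ++ [b] =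
        [b, b] ++ A ++ [b, b] ++ A ++ List.replicate (r + 1) b := by
      rw [List.replicate_succ']
      simp
    have e2 : [] ++ (List.replicate r b ++ ([b, b] ++ A ++ [b, b] ++ A)) ++ [b] =
        List.replicate r b ++ ([b, b] ++ A ++ [b, b] ++ A ++ [b]) ++ [] := by
      simp
    have e3 : List.replicate r b ++ (b :: ([b, b] ++ A ++ [b, b] ++ A)) ++ [] =
        List.replicate (r + 1) b ++ ([b, b] ++ A ++ [b, b] ++ A) := by
      rw [List.replicate_succ']
      simp
    rw [e1, e2] at h2
    rw [e3] at h3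
    exact β.trans h2 h3

theorem claim {n : ℕ} {β : FIC} (h : ClW n β) (p q : List ℕ) (a b r : ℕ) (ha : a ∈ q) :
    RR β (p ++ a :: (List.replicate (4 + r) b ++ q))
      (p ++ a :: (List.replicate (r + 2) b ++ (List.replicate n a ++
        (b :: b :: (List.replicate n a ++ q))))) := by
  obtain ⟨A, hA⟩ : ∃ A, A = List.replicate n a := ⟨_, rfl⟩
  have h1 := ruleI h p [b, b] (List.replicate r b ++ q) a (List.mem_append_right _ ha)
  have h2 := ruleI h p [b] (b :: b :: (A ++ (List.replicate r b ++ q))) a (by simp [ha])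
  rw [← hA] at h1 h2 ⊢
  have h3 := ctx (p ++ [a]) q (zbr h A b r) rfl rfl
  have e0 : p ++ a :: (List.replicate (4 + r) b ++ q) =
      p ++ a :: ([b, b] ++ ([b, b] ++ (List.replicate r b ++ q))) := by
    rw [List.replicate_add]
    simp [List.replicate_succ]
  have e1 : p ++ a :: ([b, b] ++ ([b, b] ++ (A ++ (List.replicate r b ++ q)))) =
      p ++ a :: ([b] ++ ([b] ++ (b :: b :: (A ++ (List.replicate r b ++ q))))) := by
    simp
  have e2 : p ++ a :: ([b] ++ ([b] ++ (A ++ (b :: b :: (A ++ (List.replicate r b ++ q)))))) =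
      p ++ [a] ++ ([b, b] ++ A ++ [b, b] ++ A ++ List.replicate r b) ++ q := by
    simp
  have e3 : p ++ [a] ++ (List.replicate r b ++ ([b, b] ++ A ++ [b, b] ++ A)) ++ q =
      p ++ a :: (List.replicate (r + 2) b ++ (A ++ (b :: b :: (A ++ q)))) := by
    rw [List.replicate_add]
    simp [List.replicate_succ]
  rw [e0]
  rw [e1] at h1
  rw [e2] at h2
  rw [e3] at h3
  exact β.trans h1 (β.trans h2 h3)

theorem ewn (hIdn : IdnStmt) : EwnStmt := by
  intro n β h p q a b ha hb
  have idn := hIdn n β h.pos h.ap h.be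
  by_cases hab : a = b
  · subst hab
    have h1 := idn p (a :: q) a (Or.inr (by simp)) 1
    rw [mul_one, rep_cons, List.replicate_succ] at h1
    exact h1
  -- insertion behind a large power
  have key : ∀ r, RR β (p ++ a :: (List.replicate (4 + r) b ++ q))
      (p ++ a :: (List.replicate (4 + r) b ++ (List.replicate n a ++ q))) := by
    intro r
    have h1 := claim h p q a b r ha
    have h2 := claim h p (List.replicate n a ++ q) a b r (List.mem_append_right _ ha)
    obtain ⟨m, rfl⟩ : ∃ m, n = m + 1 := ⟨n - 1, by have := h.pos; omega⟩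
    obtain ⟨U, hU⟩ : ∃ U, U = p ++ a :: (List.replicate (r + 2) b ++ (List.replicate (m + 1) a ++
        (b :: b :: List.replicate m a))) := ⟨_, rfl⟩
    have h3 := idn U q a (Or.inr ha) 1
    have e1 : U ++ a :: q = p ++ a :: (List.replicate (r + 2) b ++ (List.replicate (m + 1) a ++
        (b :: b :: (List.replicate (m + 1) a ++ q)))) := by
      rw [hU, List.replicate_succ' (n := m)]
      simp
    have e2 : U ++ (List.replicate ((m + 1) * 1 + 1) a ++ q) = p ++ a :: (List.replicate (r + 2) b ++
        (List.replicate (m + 1) a ++ (b :: b :: (List.replicate (m + 1) a ++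
          (List.replicate (m + 1) a ++ q))))) := by
      have e3 : List.replicate (m + 1) a ++ (List.replicate (m + 1) a ++ q) =
          List.replicate m a ++ (List.replicate ((m + 1) * 1 + 1) a ++ q) := by
        rw [← List.append_assoc, ← List.append_assoc, List.replicate_append_replicate,
          List.replicate_append_replicate]
        congr 2
        omega
      rw [e3, hU]
      simp
    rw [e1, e2] at h3
    exact β.trans h1 (β.trans h3 (β.symm h2))
  obtain ⟨r, hr⟩ : ∃ r, n * 4 + 1 = 4 + r := ⟨n * 4 - 3, by have := h.pos; omega⟩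
  have hb1 : b ∈ p ++ [a] ∨ b ∈ q := by
    rcases hb with h0 | h0
    · exact Or.inl (List.mem_append_left _ h0)
    · exact Or.inr h0
  have hb2 : b ∈ p ++ [a] ∨ b ∈ List.replicate n a ++ q := by
    rcases hb with h0 | h0
    · exact Or.inl (List.mem_append_left _ h0)
    · exact Or.inr (List.mem_append_right _ h0)
  have h1 := idn (p ++ [a]) q b hb1 4
  have h2 := idn (p ++ [a]) (List.replicate n a ++ q) b hb2 4
  rw [hr, List.append_assoc, List.append_assoc] at h1 h2
  exact β.trans h1 (β.trans (key r) (β.symm h2))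

end Pool.Agent.MWBN.H7
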