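import Pool.Agent.MWBN.Stmts

/-!
# Block MWBN, row XBN: the exchange in the class B, period `n` (twin of MWS.XCB by helper92)
-/

set_option autoImplicit false

namespace Pool.Agent.MWBN.H7

open Pool.Agent.Helper14_MV Pool.Agent.Helper2_MV Pool.Agent.MVO Pool.Agent.MWL Pool.Agent.MWS
open Pool.Agent.MWBN

namespace XB

variable {β : FIC}

theorem trr {a b c : List ℕ} (h1 : RR β a b) (h2 : RR β b c) : RR β a c := β.trans h1 h2

/-- move `m` copies of `x` to the left -/
theorem mv {n : ℕ} (hI : MWHP.ItN n β) (x : ℕ) : ∀ (m : ℕ) (p w w' q : List ℕ),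
    (∀ c, c ∈ w ∨ c ∈ w' → 2 ≤ (p ++ x :: (w ++ (List.replicate m x ++ (w' ++ x :: q)))).count c) →
    RR β (p ++ x :: (w ++ (List.replicate m x ++ (w' ++ x :: q))))
      (p ++ (List.replicate (m + 1) x ++ (w ++ (w' ++ x :: q))))
  | 0, p, w, w', q, _ => RR.refl _
  | m + 1, p, w, w', q, h => by
    have e1 : p ++ x :: (w ++ (List.replicate (m + 1) x ++ (w' ++ x :: q))) =
        p ++ x :: (w ++ x :: ((List.replicate m x ++ w') ++ x :: q)) := by
      simp [List.replicate_succ]
    have e2 : p ++ x :: x :: (w ++ ((List.replicate m x ++ w') ++ x :: q)) =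
        (p ++ [x]) ++ x :: (w ++ (List.replicate m x ++ (w' ++ x :: q))) := by
      simp
    have e3 : (p ++ [x]) ++ (List.replicate (m + 1) x ++ (w ++ (w' ++ x :: q))) =
        p ++ (List.replicate (m + 1 + 1) x ++ (w ++ (w' ++ x :: q))) := by
      simp [List.replicate_succ (n := m + 1)]
    have hx : 2 ≤ (p ++ x :: (w ++ x :: ((List.replicate m x ++ w') ++ x :: q))).count x := by
      simp only [List.count_append, List.count_cons_self]
      omega
    have h1 := hI.two p w (List.replicate m x ++ w') q x (by
      intro c hc
      by_cases hcx : c = x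
      · subst hcx
        exact hx
      · rw [← e1]
        apply h c
        rcases hc with hc | hc
        · exact Or.inl hc
        · rcases List.mem_append.1 hc with hc | hc
          · exact absurd (List.eq_of_mem_replicate hc) hcx
          · exact Or.inr hc)
    have h2 := mv hI x m (p ++ [x]) w w' q (by
      intro c hc
      have h3 := h c hc
      rw [e1] at h3
      rw [← e2]
      refine h3.trans (le_of_eq ?_)
      simp only [List.count_append, List.count_cons]
      omega)
    rw [e1]
    rw [e2] at h1
    rw [e3] at h2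
    exact trr h1 h2

/-- insertion of `x^n` between two occurrences of `x` -/
theorem ins_n {n : ℕ} (hI : MWHP.ItN n β) (p w w' q : List ℕ) (x : ℕ)
    (h : ∀ c, c ∈ w ∨ c ∈ w' → 2 ≤ (p ++ x :: (w ++ (w' ++ x :: q))).count c) :
    RR β (p ++ x :: (w ++ (w' ++ x :: q)))
      (p ++ x :: (w ++ (List.replicate n x ++ (w' ++ x :: q)))) := by
  have h1 := hI.one p (w ++ w') q x (by
    intro c hc
    rw [List.append_assoc]
    exact h c (List.mem_append.1 hc))
  rw [List.append_assoc] at h1
  have h2 := mv hI x n p w w' q (by
    intro c hc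
    have h3 := h c hc
    refine h3.trans ?_
    simp only [List.count_append, List.count_cons]
    omega)
  exact trr h1 (β.symm h2)

theorem ins2 {n : ℕ} (hI : MWHP.ItN n β) {W1 W2 : List ℕ} (P Q w w' : List ℕ) (z : ℕ)
    (e1 : W1 = P ++ z :: (w ++ (w' ++ z :: Q)))
    (e2 : W2 = P ++ z :: (w ++ (List.replicate n z ++ (w' ++ z :: Q))))
    (h : ∀ c, c ∈ w ∨ c ∈ w' → 2 ≤ W1.count c) : RR β W1 W2 := by
  subst e1
  subst e2
  exact ins_n hI P w w' Q z h

/-- doubling of a letter in the blocks different from block `i` -/
theorem others (h1 : BlrStmt) {n : ℕ} (idn : ∀ (p q : List ℕ) (x : ℕ), (x ∈ p ∨ x ∈ q) → ∀ m : ℕ,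
      RR β (p ++ x :: q) (p ++ (List.replicate (n * m + 1) x ++ q))) {k i x y : ℕ} {C Y : ℕ → List ℕ}
    (hi : i ≤ k) (hY : ∀ j ≤ k, j ≠ i → Y j = C j ∨ ∃ (z : ℕ) (P Q : List ℕ), (z = x ∨ z = y) ∧
      C j = P ++ z :: Q ∧ Y j = P ++ (List.replicate (n + 1) z ++ Q)) (W : List ℕ) (hx : x ∈ W) (hy : y ∈ W) :
    RR β (asm k (Function.update C i W)) (asm k (Function.update Y i W)) := by
  apply h1
  intro m hm
  obtain ⟨F, hF⟩ : ∃ F : ℕ → List ℕ, F = fun j => if j < m then Function.update Y i W j else
    Function.update C i W j := ⟨_, rfl⟩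
  obtain ⟨G, hG⟩ : ∃ G : ℕ → List ℕ, G = fun j => if j < m + 1 then Function.update Y i W j else
    Function.update C i W j := ⟨_, rfl⟩
  rw [← hF, ← hG]
  have hFi : F i = W := by
    rw [hF]
    show (if i < m then Function.update Y i W i else Function.update C i W i) = W
    rw [Function.update_self, Function.update_self, ite_self]
  by_cases hmi : m = i
  · have : F = G := by
      rw [hF, hG]
      funext j
      rcases lt_trichotomy j m with h | h | h
      · rw [if_pos h, if_pos (by omega)]
      · rw [if_neg (by omega), if_pos (by omega), h, hmi, Function.update_self,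
          Function.update_self]
      · rw [if_neg (by omega), if_neg (by omega)]
    rw [this]
    exact RR.refl _
  · have hFm : F m = C m := by
      rw [hF]
      show (if m < m then Function.update Y i W m else Function.update C i W m) = C m
      rw [if_neg (lt_irrefl m), Function.update_of_ne hmi]
    have hGF : G = Function.update F m (Y m) := by
      funext j
      rcases lt_trichotomy j m with h | h | h
      · rw [Function.update_of_ne (by omega), hF, hG]
        show (if j < m + 1 then Function.update Y i W j else Function.update C i W j) =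
          (if j < m then Function.update Y i W j else Function.update C i W j)
        rw [if_pos h, if_pos (by omega)]
      · subst h
        rw [Function.update_self, hG]
        show (if j < j + 1 then Function.update Y i W j else Function.update C i W j) = Y j
        rw [if_pos (by omega), Function.update_of_ne hmi]
      · rw [Function.update_of_ne (by omega), hF, hG]
        show (if j < m + 1 then Function.update Y i W j else Function.update C i W j) =
          (if j < m then Function.update Y i W j else Function.update C i W j)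
        rw [if_neg (by omega), if_neg (by omega)]
    rw [hGF, asm_update hm, asm_split hm, hFm]
    rcases hY m hm hmi with h | ⟨z, P, Q, hz, hC, hYm⟩
    · rw [h]
      exact RR.refl _
    · have hzF : z ∈ F i := by
        rw [hFi]
        rcases hz with h | h
        · rw [h]; exact hx
        · rw [h]; exact hy
      have hmem : z ∈ pre F m ++ P ∨ z ∈ Q ++ suf F m (k - m) := by
        rcases lt_or_gt_of_ne hmi with h | h
        · right
          exact List.mem_append_right _ (mem_suf.2 (Or.inr ⟨i, h, by omega, hzF⟩))
        · left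
          exact List.mem_append_left _ (mem_pre.2 (Or.inr ⟨i, h, hzF⟩))
      have h3 := idn (pre F m ++ P) (Q ++ suf F m (k - m)) z hmem 1
      rw [hC, hYm]
      rw [mul_one] at h3
      have e1 : pre F m ++ (P ++ z :: Q) ++ suf F m (k - m) =
          pre F m ++ P ++ z :: (Q ++ suf F m (k - m)) := by
        simp
      have e2 : pre F m ++ (P ++ (List.replicate (n + 1) z ++ Q)) ++ suf F m (k - m) =
          pre F m ++ P ++ (List.replicate (n + 1) z ++ (Q ++ suf F m (k - m))) := by
        simp
      rw [e1, e2]
      exact h3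

/-- the substitution of the two letters -/
def hh (x y : ℕ) (c : ℕ) : List ℕ := if c = 0 then [x] else [y]

theorem base {n : ℕ} (hCpf : CpfStmt) (hB : ClB n β) : ClXn n β := by
  have f0 : RR β [0, 1, 0, 1] [1, 0, 0, 1] :=
    hB.dd [] [0, 1] 0 1 [0, 1] (Or.inr ⟨[], [], rfl⟩) (by simp) (by simp) (by decide)
  have f1 : RR β [0, 1, 0, 1] [0, 1, 1, 0] :=
    hB.dd [0, 1] [] 0 1 [0, 1] (Or.inl ⟨[], [], rfl⟩) (by simp) (by simp) (by decide)
  refine ⟨⟨hB.pos, hB.ap, ?_, ?_, hB.itn, hCpf β f0 f1⟩, hB.be⟩
  · have h1 := hB.be.sub (fun c => if c = 0 then [0] else [0, 2])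
    have e0 : ∀ m : ℕ, (List.replicate m 0).flatMap (fun c : ℕ => if c = 0 then [0] else [0, 2]) =
        List.replicate m 0 := by
      intro m
      induction m with
      | zero => rfl
      | succ m ih => rw [List.replicate_succ, List.flatMap_cons, ih]; rfl
    have e1 : [0, 1, 0].flatMap (fun c : ℕ => if c = 0 then [0] else [0, 2]) = [0, 0, 2, 0] := rfl
    have e2 : (List.replicate (n + 1) 0 ++ 1 :: List.replicate (n + 1) 0).flatMap
        (fun c : ℕ => if c = 0 then [0] else [0, 2]) =
        List.replicate (n + 2) 0 ++ (2 :: List.replicate (n + 1) 0) := by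
      rw [List.flatMap_append, List.flatMap_cons, e0, List.replicate_succ' (n := n + 1)]
      simp
    rw [e1, e2] at h1
    have h2 : RR β ([0, 0] ++ (2 :: List.replicate (n + 1) 0))
        (List.replicate (n + 2) 0 ++ (2 :: List.replicate (n + 1) 0)) :=
      hB.ap.append (RR.refl _)
    exact trr h1 (β.symm h2)
  · have h2 : RR β [1, 0, 1, 0] [1, 0, 0, 1] := f1.sub (fun c => if c = 0 then [1] else [0])
    exact trr f0 (β.symm h2)

end XB

open XB

/-- **Row XBN** -/
theorem xbn (h1 : BlrStmt) (hIdn : IdnStmt) (hCpf : CpfStmt) : XbnStmt := by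
  intro n β hB
  have idn := hIdn n β hB.pos hB.ap hB.be
  obtain ⟨m0, hm0⟩ : ∃ m0, n = m0 + 1 := ⟨n - 1, by have := hB.pos; omega⟩
  refine ⟨base hCpf hB, ?_⟩
  intro θ hθ k C hC i hi A D x y hCi hxy hxA hxD hyA hyD hor
  have hlift : ∀ a b : List ℕ, RR β a b → RR θ a b := fun a b h => hθ _ _ h
  have hcnt : ∀ j ≤ k, ∀ c ∈ C j, 2 ≤ (asm k C).count c := by
    intro j hj c hc
    rw [count_asm (hC.ok j hj c hc)]
    exact hC.ml j hj c hc
  have e1 : asm k C = (pre C i ++ A) ++ x :: y :: (D ++ suf C i (k - i)) := by
    rw [asm_split hi, hCi]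
    simp
  by_cases hcase : ∃ j ≤ k, j ≠ i ∧ x ∈ C j ∧ y ∈ C j
  · obtain ⟨j, hj, hji, hxj, hyj⟩ := hcase
    have e2 : asm k (Function.update C i (A ++ y :: x :: D)) =
        (pre C i ++ A) ++ y :: x :: (D ++ suf C i (k - i)) := by
      rw [asm_update hi]
      simp
    have hfac : (∃ r s, pre C i ++ A = r ++ C j ++ s) ∨
        (∃ r s, D ++ suf C i (k - i) = r ++ C j ++ s) := by
      rcases lt_or_gt_of_ne hji with h | h
      · left
        obtain ⟨R, hR⟩ := pre_split (B := C) h
        exact ⟨pre C j, R ++ A, by rw [hR]; simp⟩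
      · right
        obtain ⟨R, R', hR⟩ := suf_split (B := C) (i := i) (j := j) (r := k - i) h (by omega)
        exact ⟨D ++ R, R', by rw [hR]; simp⟩
    rw [e1, e2]
    refine hlift _ _ (hB.dd _ _ x y (C j) hfac hxj hyj ?_)
    intro z hz
    rw [← e1]
    exact hcnt j hj z hz
  · have hV : VB k (ty C x) (ty C y) i := by
      refine ⟨hi, ?_, ?_, ?_⟩
      · show (C i).count x ≠ 0
        rw [hCi]
        intro h0
        exact List.count_eq_zero.1 h0 (by simp)
      · show (C i).count y ≠ 0
        rw [hCi]
        intro h0
        exact List.count_eq_zero.1 h0 (by simp)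
      · intro j hj hji
        by_contra hcon
        push Not at hcon
        refine hcase ⟨j, hj, hji, ?_, ?_⟩
        · by_contra h0
          exact hcon.1 (List.count_eq_zero.2 h0)
        · by_contra h0
          exact hcon.2 (List.count_eq_zero.2 h0)
    have hTE : TE θ k (ty C x) (ty C y) i := by
      rcases hor with h | h
      · exact absurd hV h
      · exact h
    have hPQ : ∀ j, ∃ PQ : List ℕ × List ℕ, (j = i → PQ = (A, D)) ∧ (j ≠ i →
        (x ∈ C j → C j = PQ.1 ++ x :: PQ.2) ∧ (x ∉ C j → y ∈ C j → C j = PQ.1 ++ y :: PQ.2) ∧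
        (x ∉ C j → y ∉ C j → C j = PQ.1 ∧ PQ.2 = [])) := by
      intro j
      by_cases hji : j = i
      · exact ⟨(A, D), fun _ => rfl, fun h => absurd hji h⟩
      · by_cases hx : x ∈ C j
        · obtain ⟨P, Q, h⟩ := List.append_of_mem hx
          exact ⟨(P, Q), fun h => absurd h hji, fun _ => ⟨fun _ => h, fun h' => absurd hx h',
            fun h' => absurd hx h'⟩⟩
        · by_cases hy : y ∈ C j
          · obtain ⟨P, Q, h⟩ := List.append_of_mem hy
            exact ⟨(P, Q), fun h => absurd h hji, fun _ => ⟨fun h' => absurd h' hx, fun _ _ => h,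
              fun _ h' => absurd hy h'⟩⟩
          · exact ⟨(C j, []), fun h => absurd h hji, fun _ => ⟨fun h' => absurd h' hx,
              fun _ h' => absurd h' hy, fun _ _ => ⟨rfl, rfl⟩⟩⟩
    choose PQ hPQi hPQj using hPQ
    -- the letter which is raised in front
    obtain ⟨R, hR⟩ : ∃ R : ℕ → List ℕ, R = fun j => if x ∈ C j then List.replicate m0 x else
        if y ∈ C j then List.replicate m0 y else [] := ⟨_, rfl⟩
    obtain ⟨S, hS⟩ : ∃ S : ℕ → List ℕ, S = fun j => if j = i then List.replicate m0 y else [] :=
      ⟨_, rfl⟩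
    have hSi : S i = List.replicate m0 y := by rw [hS]; exact if_pos rfl
    have hSj : ∀ j, j ≠ i → S j = [] := fun j hj => by rw [hS]; exact if_neg hj
    have hxi : x ∈ C i := by rw [hCi]; simp
    have hRi : R i = List.replicate m0 x := by rw [hR]; exact if_pos hxi
    obtain ⟨Y, hYd⟩ : ∃ Y : ℕ → List ℕ, Y = fun j => ((PQ j).1 ++ R j) ++
        (bl (hv (ty C x j)) (hv (ty C y j)) false).flatMap (hh x y) ++ (S j ++ (PQ j).2) := ⟨_, rfl⟩
    have hX : ∀ l : List ℕ, (fun j => ((PQ j).1 ++ R j) ++
        (cb (ty C x) (ty C y) (fun _ => false) i l j).flatMap (hh x y) ++ (S j ++ (PQ j).2)) =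
        Function.update Y i ((A ++ List.replicate m0 x) ++ l.flatMap (hh x y) ++
          (List.replicate m0 y ++ D)) := by
      intro l
      funext j
      by_cases hji : j = i
      · subst hji
        rw [Function.update_self, hPQi j rfl, hRi, hSi]
        show (A ++ List.replicate m0 x) ++ (if j = j then l else _).flatMap (hh x y) ++
          (List.replicate m0 y ++ D) = _
        rw [if_pos rfl]
      · rw [Function.update_of_ne hji, hYd]
        show ((PQ j).1 ++ R j) ++ (if j = i then l else _).flatMap (hh x y) ++ (S j ++ (PQ j).2) = _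
        rw [if_neg hji]
    have hY : ∀ j ≤ k, j ≠ i → Y j = C j ∨ ∃ (z : ℕ) (P Q : List ℕ), (z = x ∨ z = y) ∧
        C j = P ++ z :: Q ∧ Y j = P ++ (List.replicate (n + 1) z ++ Q) := by
      intro j hj hji
      obtain ⟨hp1, hp2, hp3⟩ := hPQj j hji
      by_cases hx : x ∈ C j
      · have hy : y ∉ C j := fun h => hcase ⟨j, hj, hji, hx, h⟩
        right
        refine ⟨x, (PQ j).1, (PQ j).2, Or.inl rfl, hp1 hx, ?_⟩
        have a1 : ty C x j ≠ 0 := fun h => List.count_eq_zero.1 h hx
        have a2 : ty C y j = 0 := List.count_eq_zero.2 hy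
        have hRj : R j = List.replicate m0 x := by rw [hR]; exact if_pos hx
        rw [hYd]
        show ((PQ j).1 ++ R j) ++ (bl (hv (ty C x j)) (hv (ty C y j)) false).flatMap (hh x y) ++
          (S j ++ (PQ j).2) = _
        rw [a2, hv, hv, if_neg a1, if_pos rfl, hRj, hSj j hji, hm0, List.replicate_add m0 2]
        simp [bl, hh, List.replicate_succ]
      · by_cases hy : y ∈ C j
        · right
          refine ⟨y, (PQ j).1, (PQ j).2, Or.inr rfl, hp2 hx hy, ?_⟩
          have a1 : ty C x j = 0 := List.count_eq_zero.2 hx
          have a2 : ty C y j ≠ 0 := fun h => List.count_eq_zero.1 h hy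
          have hRj : R j = List.replicate m0 y := by
            rw [hR]
            show (if x ∈ C j then _ else if y ∈ C j then _ else _) = _
            rw [if_neg hx, if_pos hy]
          rw [hYd]
          show ((PQ j).1 ++ R j) ++ (bl (hv (ty C x j)) (hv (ty C y j)) false).flatMap (hh x y) ++
            (S j ++ (PQ j).2) = _
          rw [a1, hv, hv, if_neg a2, if_pos rfl, hRj, hSj j hji, hm0, List.replicate_add m0 2]
          simp [bl, hh, List.replicate_succ]
        · left
          have a1 : ty C x j = 0 := List.count_eq_zero.2 hx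
          have a2 : ty C y j = 0 := List.count_eq_zero.2 hy
          obtain ⟨a3, a4⟩ := hp3 hx hy
          have hRj : R j = [] := by
            rw [hR]
            show (if x ∈ C j then _ else if y ∈ C j then _ else _) = _
            rw [if_neg hx, if_neg hy]
          rw [hYd]
          show ((PQ j).1 ++ R j) ++ (bl (hv (ty C x j)) (hv (ty C y j)) false).flatMap (hh x y) ++
            (S j ++ (PQ j).2) = _
          rw [a1, a2, a4, ← a3, hRj, hSj j hji]
          simp [bl, hv]
    -- multiple letters
    have hmul : ∀ W : List ℕ, (∀ c, (C i).count c ≤ W.count c) → ∀ c ∈ C i,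
        2 ≤ (pre Y i ++ W ++ suf Y i (k - i)).count c := by
      intro W hW c hc
      rw [← asm_update hi, count_asm (hC.ok i hi c hc)]
      refine (hC.ml i hi c hc).trans ?_
      unfold deg
      refine Finset.sum_le_sum fun j hj => ?_
      have hjk : j ≤ k := by
        rw [Finset.mem_range] at hj
        omega
      by_cases hji : j = i
      · subst hji
        rw [Function.update_self]
        exact hW c
      · rw [Function.update_of_ne hji]
        rcases hY j hjk hji with h | ⟨z, P, Q, -, hc1, hc2⟩
        · rw [h]
        · rw [hc1, hc2, List.replicate_succ]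
          simp only [List.count_append, List.count_cons, List.cons_append]
          omega
    have s0 : asm k C = asm k (Function.update C i (A ++ x :: y :: D)) := by
      rw [← hCi, Function.update_eq_self]
    have s1 : RR β (asm k (Function.update C i (A ++ x :: y :: D)))
        (asm k (Function.update Y i (A ++ x :: y :: D))) :=
      others h1 idn hi hY _ (by simp) (by simp)
    have s2 : RR β (asm k (Function.update Y i (A ++ x :: y :: D)))
        (asm k (Function.update Y i ((A ++ List.replicate m0 x) ++ [0, 0, 1, 1].flatMap (hh x y) ++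
          (List.replicate m0 y ++ D)))) := by
      rw [asm_update hi, asm_update hi]
      have t1 := idn (pre Y i ++ A) (y :: (D ++ suf Y i (k - i))) x
        (Or.inl (List.mem_append_right _ hxA)) 1
      have t2 := idn (pre Y i ++ A ++ List.replicate (n + 1) x) (D ++ suf Y i (k - i)) y
        (Or.inr (List.mem_append_left _ hyD)) 1
      rw [mul_one] at t1 t2
      rw [← List.append_assoc] at t1
      have t5 := trr t1 t2
      have e3 : pre Y i ++ (A ++ x :: y :: D) ++ suf Y i (k - i) =
          pre Y i ++ A ++ x :: (y :: (D ++ suf Y i (k - i))) := by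
        simp
      have e4 : pre Y i ++ ((A ++ List.replicate m0 x) ++ [0, 0, 1, 1].flatMap (hh x y) ++
          (List.replicate m0 y ++ D)) ++ suf Y i (k - i) =
          pre Y i ++ A ++ List.replicate (n + 1) x ++ (List.replicate (n + 1) y ++
            (D ++ suf Y i (k - i))) := by
        rw [hm0, List.replicate_add m0 2 x, List.replicate_succ (n := m0 + 1) (a := y),
          List.replicate_succ (n := m0) (a := y)]
        simp [hh, List.replicate_succ]
      rw [e3, e4]
      exact t5
    have hb : ∀ l : List ℕ, (∀ c ∈ l, c = 0 ∨ c = 1) →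
        BlkOk k (cb (ty C x) (ty C y) (fun _ => false) i l) := by
      intro l hl j _ c hc
      have hc01 : c = 0 ∨ c = 1 := by
        have hc' : c ∈ (if j = i then l else bl (hv (ty C x j)) (hv (ty C y j)) false) := hc
        by_cases hji : j = i
        · rw [if_pos hji] at hc'
          exact hl c hc'
        · rw [if_neg hji] at hc'
          have : c ∈ List.replicate (hv (ty C x j)) 0 ++ List.replicate (hv (ty C y j)) 1 := by
            simpa [bl] using hc'
          rcases List.mem_append.1 this with h | h
          · exact Or.inl (List.eq_of_mem_replicate h)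
          · exact Or.inr (List.eq_of_mem_replicate h)
      rintro ⟨h2, -⟩
      omega
    have s3 : RR θ (asm k (Function.update Y i ((A ++ List.replicate m0 x) ++
          [0, 0, 1, 1].flatMap (hh x y) ++ (List.replicate m0 y ++ D))))
        (asm k (Function.update Y i ((A ++ List.replicate m0 x) ++
          [0, 1, 0, 1].flatMap (hh x y) ++ (List.replicate m0 y ++ D)))) := by
      rw [← hX, ← hX]
      exact rr_ins θ (fun j => (PQ j).1 ++ R j) (fun j => S j ++ (PQ j).2) (hh x y)
        (hb _ (by simp)) (hb _ (by simp)) (hTE fun _ => false)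
    have hcle : ∀ c, (C i).count c ≤ (A ++ y :: x :: D).count c := by
      intro c
      rw [hCi]
      simp only [List.count_append, List.count_cons]
      omega
    have hcle2 : ∀ c, (C i).count c ≤ (A ++ y :: x :: (List.replicate n y ++ D)).count c := by
      intro c
      rw [hCi]
      simp only [List.count_append, List.count_cons]
      omega
    have s4 : RR β (asm k (Function.update Y i (A ++ y :: x :: D)))
        (asm k (Function.update Y i ((A ++ List.replicate m0 x) ++ [0, 1, 0, 1].flatMap (hh x y) ++
          (List.replicate m0 y ++ D)))) := by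
      rw [asm_update hi, asm_update hi]
      obtain ⟨A1, A2, hA⟩ := List.append_of_mem hxA
      obtain ⟨E1, E2, hE⟩ := List.append_of_mem hyD
      have t1 : RR β (pre Y i ++ (A ++ y :: x :: D) ++ suf Y i (k - i))
          (pre Y i ++ (A ++ y :: x :: (List.replicate n y ++ D)) ++ suf Y i (k - i)) := by
        refine ins2 hB.itn (pre Y i ++ A) (E2 ++ suf Y i (k - i)) [x] E1 y (by rw [hE]; simp)
          (by rw [hE]; simp) ?_
        intro c hc
        refine hmul _ hcle c ?_
        rw [hCi]
        rcases hc with hc | hc
        · rw [List.mem_singleton] at hc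
          simp [hc]
        · rw [hE]
          simp [hc]
      have t2 : RR β (pre Y i ++ (A ++ y :: x :: (List.replicate n y ++ D)) ++ suf Y i (k - i))
          (pre Y i ++ (A ++ (List.replicate n x ++ y :: x :: (List.replicate n y ++ D))) ++
            suf Y i (k - i)) := by
        refine ins2 hB.itn (pre Y i ++ A1) (List.replicate n y ++ D ++ suf Y i (k - i)) A2 [y] x
          (by rw [hA]; simp) (by rw [hA]; simp) ?_
        intro c hc
        refine hmul _ hcle2 c ?_
        rw [hCi]
        rcases hc with hc | hc
        · rw [hA]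
          simp [hc]
        · rw [List.mem_singleton] at hc
          simp [hc]
      have t3 := trr t1 t2
      have e4 : pre Y i ++ ((A ++ List.replicate m0 x) ++ [0, 1, 0, 1].flatMap (hh x y) ++
          (List.replicate m0 y ++ D)) ++ suf Y i (k - i) =
          pre Y i ++ (A ++ (List.replicate n x ++ y :: x :: (List.replicate n y ++ D))) ++
            suf Y i (k - i) := by
        rw [hm0, List.replicate_succ' (n := m0) (a := x), List.replicate_succ (n := m0) (a := y)]
        simp [hh]
      rw [e4]
      exact t3
    have s5 : RR β (asm k (Function.update C i (A ++ y :: x :: D)))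
        (asm k (Function.update Y i (A ++ y :: x :: D))) :=
      others h1 idn hi hY _ (by simp) (by simp)
    rw [s0]
    exact θ.trans (hlift _ _ s1) (θ.trans (hlift _ _ s2) (θ.trans s3
      (θ.trans (hlift _ _ s4.symm) (hlift _ _ s5.symm))))

end Pool.Agent.MWBN.H7
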